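import Mathlib

/-!
# Many edges in a neighbourhood

`Mat G k N`: the set `N` contains `k` pairwise disjoint edges of `G`.
-/

set_option autoImplicit false

namespace Pool.Agent.MP_0a9719_co_FG

open Finset Classical

variable {V : Type*}

/-- `N` contains `k` pairwise disjoint edges of `G`. -/
def Mat (G : SimpleGraph V) : ℕ → Finset V → Prop
  | 0, _ => True
  | k + 1, N => ∃ x ∈ N, ∃ y ∈ N, G.Adj x y ∧ Mat G k ((N.erase x).erase y)

theorem mat_mono (G : SimpleGraph V) (k : ℕ) : ∀ N N' : Finset V, Mat G k N → N ⊆ N' →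
    Mat G k N' := by
  induction k with
  | zero => intro _ _ _ _; trivial
  | succ k ih =>
    rintro N N' ⟨x, hx, y, hy, h, hk⟩ hN
    exact ⟨x, hN hx, y, hN hy, h, ih _ _ hk (erase_subset_erase _ (erase_subset_erase _ hN))⟩

theorem mat_cover (G : SimpleGraph V) (k : ℕ) : ∀ N : Finset V, ¬ Mat G k N →
    ∃ Z : Finset V, Z.card ≤ 2 * k ∧ ∀ x ∈ N \ Z, ∀ y ∈ N \ Z, ¬ G.Adj x y := by
  induction k with
  | zero => intro N h; exact absurd trivial h
  | succ k ih =>
    intro N h
    by_cases he : ∃ x ∈ N, ∃ y ∈ N, G.Adj x y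
    · obtain ⟨x, hx, y, hy, hxy⟩ := he
      have h1 : ¬ Mat G k ((N.erase x).erase y) := fun h1 => h ⟨x, hx, y, hy, hxy, h1⟩
      obtain ⟨Z, hZ, hZ'⟩ := ih _ h1
      refine ⟨insert x (insert y Z), ?_, ?_⟩
      · have h2 := card_insert_le x (insert y Z)
        have h3 := card_insert_le y Z
        omega
      · have key : ∀ a ∈ N \ insert x (insert y Z), a ∈ ((N.erase x).erase y) \ Z := by
          intro a ha
          simp only [mem_sdiff, mem_insert, not_or] at ha
          simp only [mem_sdiff, mem_erase]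
          exact ⟨⟨ha.2.2.1, ha.2.1, ha.1⟩, ha.2.2.2⟩
        exact fun a ha b hb => hZ' a (key a ha) b (key b hb)
    · refine ⟨∅, by simp, fun x hx y hy hxy => he ⟨x, ?_, y, ?_, hxy⟩⟩
      · simpa using hx
      · simpa using hy

theorem mat_greedy (G : SimpleGraph V) (z k : ℕ) : ∀ P Q : Finset V, k ≤ P.card →
    k + z ≤ Q.card → Disjoint P Q → (∀ x ∈ P, (Q.filter fun y => ¬ G.Adj x y).card ≤ z) →
    Mat G k (P ∪ Q) := by
  induction k with
  | zero => intro _ _ _ _ _ _; trivial
  | succ k ih =>
    intro P Q hP hQ hd hz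
    obtain ⟨x, hx⟩ : P.Nonempty := card_pos.1 (by omega)
    have h1 : ∃ y ∈ Q, G.Adj x y := by
      by_contra h1
      push Not at h1
      have h2 : (Q.filter fun y => ¬ G.Adj x y) = Q := by
        rw [filter_eq_self]
        exact h1
      have h3 := hz x hx
      rw [h2] at h3
      omega
    obtain ⟨y, hy, hxy⟩ := h1
    refine ⟨x, mem_union_left _ hx, y, mem_union_right _ hy, hxy, ?_⟩
    have hxQ : x ∉ Q := disjoint_left.1 hd hx
    have hyP : y ∉ P := disjoint_right.1 hd hy
    have h4 := ih (P.erase x) (Q.erase y) (by rw [card_erase_of_mem hx]; omega)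
      (by rw [card_erase_of_mem hy]; omega)
      (disjoint_of_subset_left (erase_subset _ _) (disjoint_of_subset_right (erase_subset _ _) hd))
      (fun a ha => (card_le_card (filter_subset_filter _ (erase_subset _ _))).trans
        (hz a (mem_of_mem_erase ha)))
    refine mat_mono G k _ _ h4 ?_
    intro a ha
    rcases mem_union.1 ha with ha | ha
    · have h5 := mem_erase.1 ha
      exact mem_erase.2 ⟨fun h => hyP (h ▸ h5.2), mem_erase.2 ⟨h5.1, mem_union_left _ h5.2⟩⟩
    · have h5 := mem_erase.1 ha
      exact mem_erase.2 ⟨h5.1, mem_erase.2 ⟨fun h => hxQ (h ▸ h5.2), mem_union_right _ h5.2⟩⟩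

theorem mat_emb [hV : Nonempty V] (G : SimpleGraph V) (k : ℕ) : ∀ N : Finset V, Mat G k N →
    ∃ g : ℕ → Bool → V, (∀ i < k, ∀ b, g i b ∈ N) ∧ (∀ i < k, G.Adj (g i false) (g i true)) ∧
      ∀ i < k, ∀ j < k, ∀ b b', g i b = g j b' → i = j ∧ b = b' := by
  induction k with
  | zero =>
    intro N _
    exact ⟨fun _ _ => hV.some, by simp, by simp, by simp⟩
  | succ k ih =>
    rintro N ⟨x, hx, y, hy, hxy, hk⟩
    obtain ⟨g, h1, h2, h3⟩ := ih _ hk
    have hg : ∀ i < k, ∀ b, g i b ∈ N ∧ g i b ≠ x ∧ g i b ≠ y := by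
      intro i hi b
      have h4 := h1 i hi b
      simp only [mem_erase] at h4
      exact ⟨h4.2.2, h4.2.1, h4.1⟩
    refine ⟨fun i b => if i = k then (if b then y else x) else g i b, ?_, ?_, ?_⟩
    · intro i hi b
      by_cases hik : i = k
      · cases b <;> simp [hik, hx, hy]
      · simp only [hik, if_false]
        exact (hg i (by omega) b).1
    · intro i hi
      by_cases hik : i = k
      · simpa [hik] using hxy
      · simp only [hik, if_false]
        exact h2 i (by omega)
    · intro i hi j hj b b' hb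
      by_cases hik : i = k <;> by_cases hjk : j = k
      · subst hik
        subst hjk
        refine ⟨rfl, ?_⟩
        cases b <;> cases b' <;> simp_all [hxy.ne, hxy.ne']
      · simp only [hik, hjk, if_true, if_false] at hb
        have h4 := hg j (by omega) b'
        exfalso
        cases b
        · exact h4.2.1 (by simpa using hb.symm)
        · exact h4.2.2 (by simpa using hb.symm)
      · simp only [hik, hjk, if_true, if_false] at hb
        have h4 := hg i (by omega) b
        exfalso
        cases b'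
        · exact h4.2.1 (by simpa using hb)
        · exact h4.2.2 (by simpa using hb)
      · simp only [hik, hjk, if_false] at hb
        exact h3 i (by omega) j (by omega) b b' hb

end Pool.Agent.MP_0a9719_co_FG
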