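import Mathlib
import Pool.Agent.Lib.MP_0a9719_co_FG.Mat

/-!
# The number of edges of a graph without `k` disjoint edges in a neighbourhood
-/

set_option autoImplicit false

namespace Pool.Agent.MP_0a9719_co_FG

open Finset Classical

variable {V : Type*}

/-- the number of neighbours of `a` in `T` -/
noncomputable def dg (G : SimpleGraph V) (T : Finset V) (a : V) : ℕ := (T.filter (G.Adj a)).card

/-- the number of ordered adjacent pairs in `S × T` -/
noncomputable def XX (G : SimpleGraph V) (S T : Finset V) : ℕ := ∑ a ∈ S, dg G T a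

theorem xx_eq (G : SimpleGraph V) (S T : Finset V) :
    XX G S T = ∑ a ∈ S, ∑ b ∈ T, if G.Adj a b then 1 else 0 := by
  unfold XX dg
  simp only [card_filter]

theorem xx_comm (G : SimpleGraph V) (S T : Finset V) : XX G S T = XX G T S := by
  rw [xx_eq, xx_eq, sum_comm]
  simp only [G.adj_comm]

theorem xx_union_left (G : SimpleGraph V) {A B : Finset V} (h : Disjoint A B) (T : Finset V) :
    XX G (A ∪ B) T = XX G A T + XX G B T := by
  unfold XX
  exact sum_union h

theorem xx_union (G : SimpleGraph V) {A B : Finset V} (h : Disjoint A B) :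
    XX G (A ∪ B) (A ∪ B) = XX G A A + XX G B B + 2 * XX G A B := by
  rw [xx_union_left G h, xx_comm G A, xx_comm G B, xx_union_left G h, xx_union_left G h,
    xx_comm G B A]
  ring

theorem xx_le (G : SimpleGraph V) (A T : Finset V) (d : ℕ) (h : ∀ a ∈ A, dg G T a ≤ d) :
    XX G A T ≤ A.card * d := by
  unfold XX
  have := sum_le_card_nsmul A (fun a => dg G T a) d h
  simpa using this

theorem dg_le (G : SimpleGraph V) (T : Finset V) (a : V) : dg G T a ≤ T.card :=
  card_filter_le _ _

theorem xx_erase (G : SimpleGraph V) (S : Finset V) {x : V} (hx : x ∈ S) :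
    XX G S S = XX G (S.erase x) (S.erase x) + 2 * dg G S x := by
  have h1 : S = {x} ∪ S.erase x := by
    rw [← insert_eq, insert_erase hx]
  have h2 : Disjoint {x} (S.erase x) := by simp
  have h3 : XX G {x} {x} = 0 := by
    unfold XX dg
    simp
  have h4 : XX G {x} (S.erase x) = dg G S x := by
    unfold XX
    rw [sum_singleton]
    unfold dg
    congr 1
    ext y
    simp only [mem_filter, mem_erase]
    exact ⟨fun h => ⟨h.1.2, h.2⟩, fun h => ⟨⟨h.2.ne', h.1⟩, h.2⟩⟩
  conv_lhs => rw [h1]
  rw [xx_union G h2, h3, h4]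
  ring

theorem sq_step (n : ℕ) (hn : 1 ≤ n) : (n - 1) ^ 2 / 4 + n / 2 = n ^ 2 / 4 := by
  rcases Nat.even_or_odd' n with ⟨m, rfl | rfl⟩
  · obtain ⟨t, rfl⟩ : ∃ t, m = t + 1 := ⟨m - 1, by omega⟩
    have h1 : (2 * (t + 1) - 1) ^ 2 = 4 * (t ^ 2 + t) + 1 := by
      rw [show 2 * (t + 1) - 1 = 2 * t + 1 by omega]
      ring
    have h2 : (2 * (t + 1)) ^ 2 = 4 * (t ^ 2 + 2 * t + 1) := by ring
    rw [h1, h2]
    omega
  · have h1 : (2 * m + 1 - 1) ^ 2 = 4 * m ^ 2 := by
      rw [show 2 * m + 1 - 1 = 2 * m by omega]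
      ring
    have h2 : (2 * m + 1) ^ 2 = 4 * (m ^ 2 + m) + 1 := by ring
    rw [h1, h2]
    omega

theorem mul_le_sq (a b n : ℕ) (h : a + b = n) : a * b ≤ n ^ 2 / 4 := by
  rw [Nat.le_div_iff_mul_le (by norm_num)]
  subst h
  nlinarith [Nat.zero_le a, sq_nonneg ((a : ℤ) - b), four_mul_le_sq_add a b]

/-- The structure of a graph of minimum degree larger than `n / 2` without `k` disjoint edges in a
neighbourhood. -/
theorem dense_case (G : SimpleGraph V) (k : ℕ) (S : Finset V)
    (h : ∀ v, ¬ Mat G k (S.filter (G.Adj v))) (hS : 4 * k < S.card)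
    (hdeg : ∀ x ∈ S, S.card + 1 ≤ 2 * dg G S x) :
    XX G S S ≤ 2 * (S.card ^ 2 / 4) + 40 * k ^ 2 := by
  obtain ⟨v, hv⟩ : S.Nonempty := card_pos.1 (by omega)
  obtain ⟨Z, hZ, hZi⟩ := mat_cover G k _ (h v)
  set I : Finset V := S.filter (G.Adj v) \ Z with hI
  have hIS : I ⊆ S := fun x hx => (mem_filter.1 (mem_sdiff.1 hx).1).1
  have hIc : S.card + 1 ≤ 2 * I.card + 4 * k := by
    have h1 := hdeg v hv
    have h2 : (S.filter (G.Adj v)).card ≤ I.card + Z.card := by
      have h0 := le_card_sdiff Z (S.filter (G.Adj v))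
      rw [← hI] at h0
      omega
    unfold dg at h1
    omega
  obtain ⟨w, hw⟩ : I.Nonempty := card_pos.1 (by omega)
  obtain ⟨Z', hZ', hZi'⟩ := mat_cover G k _ (h w)
  set J : Finset V := S.filter (G.Adj w) \ Z' with hJ
  have hJS : J ⊆ S := fun x hx => (mem_filter.1 (mem_sdiff.1 hx).1).1
  have hJc : S.card + 1 ≤ 2 * J.card + 4 * k := by
    have h1 := hdeg w (hIS hw)
    have h2 : (S.filter (G.Adj w)).card ≤ J.card + Z'.card := by
      have h0 := le_card_sdiff Z' (S.filter (G.Adj w))
      rw [← hJ] at h0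
      omega
    unfold dg at h1
    omega
  have hIJ : Disjoint I J := by
    rw [disjoint_left]
    intro x hxI hxJ
    exact hZi w hw x hxI (mem_filter.1 (mem_sdiff.1 hxJ).1).2
  set R : Finset V := S \ (I ∪ J) with hR
  have hIJS : I ∪ J ⊆ S := union_subset hIS hJS
  have hRc : R.card ≤ 4 * k := by
    have h1 : R.card = S.card - (I ∪ J).card := card_sdiff_of_subset hIJS
    have h2 := card_union_of_disjoint hIJ
    omega
  -- a vertex of `I` misses at most `2 k` vertices of `J`
  have hmiss : ∀ x ∈ I, (J.filter fun y => ¬ G.Adj x y).card ≤ 2 * k := by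
    intro x hx
    have h1 := hdeg x (hIS hx)
    have h2 : (S.filter (G.Adj x)) ∪ (J.filter fun y => ¬ G.Adj x y) ⊆ S \ I := by
      intro y hy
      rcases mem_union.1 hy with hy | hy
      · have h3 := mem_filter.1 hy
        exact mem_sdiff.2 ⟨h3.1, fun h4 => hZi x hx y h4 h3.2⟩
      · have h3 := mem_filter.1 hy
        exact mem_sdiff.2 ⟨hJS h3.1, fun h4 => disjoint_left.1 hIJ h4 h3.1⟩
    have h3 : Disjoint (S.filter (G.Adj x)) (J.filter fun y => ¬ G.Adj x y) := by
      rw [disjoint_left]
      intro y hy hy'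
      exact (mem_filter.1 hy').2 (mem_filter.1 hy).2
    have h4 := card_le_card h2
    rw [card_union_of_disjoint h3, card_sdiff_of_subset hIS] at h4
    unfold dg at h1
    have h5 := card_le_card hIS
    omega
  have halt : ∀ r ∈ R, k ≤ dg G I r → dg G J r < 3 * k := by
    intro r hr h1
    by_contra h2
    push Not at h2
    have h3 := mat_greedy G (2 * k) k (I.filter (G.Adj r)) (J.filter (G.Adj r)) h1
      (by unfold dg at h2; omega)
      (disjoint_of_subset_left (filter_subset _ _)
        (disjoint_of_subset_right (filter_subset _ _) hIJ))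
      (fun x hx => (card_le_card (filter_subset_filter _ (filter_subset _ _))).trans
        (hmiss x (mem_filter.1 hx).1))
    refine h r (mat_mono G k _ _ h3 ?_)
    intro y hy
    rcases mem_union.1 hy with hy | hy
    · exact mem_filter.2 ⟨hIS (mem_filter.1 hy).1, (mem_filter.1 hy).2⟩
    · exact mem_filter.2 ⟨hJS (mem_filter.1 hy).1, (mem_filter.1 hy).2⟩
  set RI : Finset V := R.filter (fun r => dg G I r < k) with hRI
  set RJ : Finset V := R.filter (fun r => ¬ dg G I r < k) with hRJ
  have hRd : Disjoint R (I ∪ J) := sdiff_disjoint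
  have hRI_I : Disjoint I RI := by
    refine disjoint_of_subset_right (filter_subset _ _) ?_
    exact (disjoint_of_subset_right subset_union_left hRd).symm
  have hRJ_J : Disjoint J RJ := by
    refine disjoint_of_subset_right (filter_subset _ _) ?_
    exact (disjoint_of_subset_right subset_union_right hRd).symm
  have hRIRJ : Disjoint RI RJ := disjoint_filter_filter_not _ _ _
  have hRIJ : RI ∪ RJ = R := filter_union_filter_not_eq _ _
  have hcR : RI.card + RJ.card = R.card := by
    rw [← card_union_of_disjoint hRIRJ, hRIJ]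
  have hSeq : S = (I ∪ RI) ∪ (J ∪ RJ) := by
    have h1 : S = (I ∪ J) ∪ R := by
      rw [hR, union_sdiff_of_subset hIJS]
    rw [h1, ← hRIJ]
    ext y
    simp only [mem_union]
    tauto
  have hdis : Disjoint (I ∪ RI) (J ∪ RJ) := by
    rw [disjoint_union_left, disjoint_union_right, disjoint_union_right]
    refine ⟨⟨hIJ, ?_⟩, ?_, hRIRJ⟩
    · refine disjoint_of_subset_right (filter_subset _ _) ?_
      exact (disjoint_of_subset_right subset_union_left hRd).symm
    · refine disjoint_of_subset_left (filter_subset _ _) ?_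
      exact disjoint_of_subset_right subset_union_right hRd
  have hII : XX G I I = 0 := by
    have := xx_le G I I 0 (by
      intro a ha
      unfold dg
      rw [nonpos_iff_eq_zero, card_eq_zero, filter_eq_empty_iff]
      exact fun b hb => hZi a ha b hb)
    omega
  have hJJ : XX G J J = 0 := by
    have := xx_le G J J 0 (by
      intro a ha
      unfold dg
      rw [nonpos_iff_eq_zero, card_eq_zero, filter_eq_empty_iff]
      exact fun b hb => hZi' a ha b hb)
    omega
  have h1 : XX G RI I ≤ RI.card * k := xx_le G RI I k fun a ha => (mem_filter.1 ha).2.le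
  have h2 : XX G RJ J ≤ RJ.card * (3 * k) := xx_le G RJ J (3 * k) fun a ha =>
    (halt a (mem_filter.1 ha).1 (not_lt.1 (mem_filter.1 ha).2)).le
  have h3 : XX G RI RI ≤ RI.card * RI.card := xx_le G RI RI _ fun a _ => dg_le G RI a
  have h4 : XX G RJ RJ ≤ RJ.card * RJ.card := xx_le G RJ RJ _ fun a _ => dg_le G RJ a
  have h5 : XX G (I ∪ RI) (J ∪ RJ) ≤ (I ∪ RI).card * (J ∪ RJ).card :=
    xx_le G _ _ _ fun a _ => dg_le G _ a
  have h6 : (I ∪ RI).card * (J ∪ RJ).card ≤ S.card ^ 2 / 4 := by
    refine mul_le_sq _ _ _ ?_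
    conv_rhs => rw [hSeq]
    rw [card_union_of_disjoint hdis]
  have h7 : XX G S S = XX G (I ∪ RI) (I ∪ RI) + XX G (J ∪ RJ) (J ∪ RJ) +
      2 * XX G (I ∪ RI) (J ∪ RJ) := by
    conv_lhs => rw [hSeq]
    exact xx_union G hdis
  rw [h7, xx_union G hRI_I, xx_union G hRJ_J, hII, hJJ, xx_comm G I RI, xx_comm G J RJ]
  have h8 : RI.card * RI.card + RJ.card * RJ.card ≤ (4 * k) * (4 * k) := by
    have : RI.card + RJ.card ≤ 4 * k := by omega
    nlinarith [Nat.mul_le_mul this this]
  have h9 : RI.card * k + RJ.card * (3 * k) ≤ 12 * k * k := by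
    have h10 : RI.card + RJ.card ≤ 4 * k := by omega
    nlinarith [Nat.mul_le_mul_right k h10]
  nlinarith

/-- A graph without `k` disjoint edges in a neighbourhood has at most `n ^ 2 / 4 + 20 k ^ 2`
edges. -/
theorem upper_set (G : SimpleGraph V) (k : ℕ) : ∀ S : Finset V,
    (∀ v, ¬ Mat G k (S.filter (G.Adj v))) →
    XX G S S ≤ 2 * (S.card ^ 2 / 4) + 40 * k ^ 2 := by
  intro S
  induction S using Finset.strongInduction with
  | H S ih =>
    intro h
    by_cases hsmall : S.card ≤ 4 * k
    · have h1 := xx_le G S S _ fun a _ => dg_le G S a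
      nlinarith [Nat.mul_le_mul hsmall hsmall, Nat.zero_le (S.card ^ 2 / 4)]
    by_cases hdeg : ∃ x ∈ S, 2 * dg G S x ≤ S.card
    · obtain ⟨x, hx, hd⟩ := hdeg
      have h1 := ih (S.erase x) (erase_ssubset hx) fun v hv =>
        h v (mat_mono G k _ _ hv (filter_subset_filter _ (erase_subset _ _)))
      rw [card_erase_of_mem hx] at h1
      rw [xx_erase G S hx]
      have h2 := sq_step S.card (card_pos.2 ⟨x, hx⟩)
      have h3 : dg G S x ≤ S.card / 2 := by omega
      omega
    · push Not at hdeg
      exact dense_case G k S h (by omega) fun x hx => by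
        have := hdeg x hx
        omega

theorem upper [Fintype V] (G : SimpleGraph V) (k : ℕ)
    (h : ∀ v, ¬ Mat G k (univ.filter (G.Adj v))) :
    G.edgeSet.ncard ≤ Fintype.card V ^ 2 / 4 + 20 * k ^ 2 := by
  have h1 := upper_set G k univ h
  have h2 : XX G univ univ = 2 * G.edgeFinset.card := by
    rw [← G.sum_degrees_eq_twice_card_edges]
    unfold XX dg
    refine sum_congr rfl fun a _ => ?_
    rw [← G.card_neighborFinset_eq_degree]
    congr 1
    ext b
    simp
  have h3 : G.edgeSet.ncard = G.edgeFinset.card := by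
    rw [← Set.ncard_coe_finset, SimpleGraph.coe_edgeFinset]
  rw [h3]
  rw [h2, card_univ] at h1
  omega

end Pool.Agent.MP_0a9719_co_FG
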