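import Mathlib
import Pool.Agent.Lib.MP_0a9719_co_FG.Up

/-!
# Complete bipartite subgraphs of dense sets and common neighbours
-/

set_option autoImplicit false

namespace Pool.Agent.MP_0a9719_co_FG

open Finset Classical

variable {V : Type*}

/-- the number of non-neighbours of `a` in `T` -/
noncomputable def nd (G : SimpleGraph V) (T : Finset V) (a : V) : ℕ :=
  (T.filter fun b => ¬ G.Adj a b).card

/-- the number of ordered non-adjacent pairs in `S × T` -/
noncomputable def YY (G : SimpleGraph V) (S T : Finset V) : ℕ := ∑ a ∈ S, nd G T a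

theorem yy_comm (G : SimpleGraph V) (S T : Finset V) : YY G S T = YY G T S := by
  unfold YY nd
  simp only [card_filter]
  rw [sum_comm]
  simp only [G.adj_comm]

theorem dg_add_nd (G : SimpleGraph V) (T : Finset V) (a : V) : dg G T a + nd G T a = T.card :=
  card_filter_add_card_filter_not _

theorem xx_add_yy (G : SimpleGraph V) (S T : Finset V) :
    XX G S T + YY G S T = S.card * T.card := by
  unfold XX YY
  rw [← sum_add_distrib]
  simp only [dg_add_nd, sum_const, smul_eq_mul]

theorem dg_mono (G : SimpleGraph V) {T T' : Finset V} (h : T ⊆ T') (a : V) :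
    dg G T a ≤ dg G T' a := card_le_card (filter_subset_filter _ h)

theorem nd_mono (G : SimpleGraph V) {T T' : Finset V} (h : T ⊆ T') (a : V) :
    nd G T a ≤ nd G T' a := card_le_card (filter_subset_filter _ h)

theorem xx_mono (G : SimpleGraph V) {S S' T T' : Finset V} (hS : S ⊆ S') (hT : T ⊆ T') :
    XX G S T ≤ XX G S' T' :=
  (sum_le_sum fun a _ => dg_mono G hT a).trans
    (sum_le_sum_of_subset_of_nonneg hS fun _ _ _ => Nat.zero_le _)

theorem yy_mono (G : SimpleGraph V) {S S' T T' : Finset V} (hS : S ⊆ S') (hT : T ⊆ T') :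
    YY G S T ≤ YY G S' T' :=
  (sum_le_sum fun a _ => nd_mono G hT a).trans
    (sum_le_sum_of_subset_of_nonneg hS fun _ _ _ => Nat.zero_le _)

theorem dg_union (G : SimpleGraph V) {A B : Finset V} (h : Disjoint A B) (a : V) :
    dg G (A ∪ B) a = dg G A a + dg G B a := by
  unfold dg
  rw [filter_union, card_union_of_disjoint (disjoint_filter_filter h)]

/-- Dense sets contain complete bipartite graphs. -/
theorem kst (G : SimpleGraph V) (D w n : ℕ) (hD : 1 ≤ D) (hw : 1 ≤ w)
    (hn : 4 * D * (2 ^ (4 * D * w) * w) + 2 * D * (4 * D * w) + 1 ≤ n) (U : Finset V)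
    (hU : U.card ≤ n) (hd : n ^ 2 ≤ D * XX G U U) :
    ∃ P ⊆ U, ∃ Q ⊆ U, w ≤ P.card ∧ w ≤ Q.card ∧ ∀ x ∈ P, ∀ y ∈ Q, G.Adj x y := by
  obtain ⟨M, hM⟩ : ∃ M, M = 4 * D * w := ⟨_, rfl⟩
  rw [← hM] at hn
  obtain ⟨E, hE⟩ : ∃ E, E = 2 ^ M := ⟨_, rfl⟩
  rw [← hE] at hn
  set hv : Finset V := U.filter (fun x => n ≤ 2 * D * dg G U x) with hhv
  have h1 : n ≤ 2 * D * hv.card := by
    have h2 : XX G U U = ∑ x ∈ hv, dg G U x + ∑ x ∈ U.filter (fun x => ¬ n ≤ 2 * D * dg G U x),
        dg G U x := by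
      unfold XX
      rw [sum_filter_add_sum_filter_not]
    have h3 : ∑ x ∈ hv, dg G U x ≤ hv.card * n := by
      have := sum_le_card_nsmul hv (fun a => dg G U a) n fun a _ => (dg_le G U a).trans hU
      simpa using this
    have h4 : ∑ x ∈ U.filter (fun x => ¬ n ≤ 2 * D * dg G U x), 2 * D * dg G U x ≤
        (U.filter (fun x => ¬ n ≤ 2 * D * dg G U x)).card * n := by
      have := sum_le_card_nsmul (U.filter (fun x => ¬ n ≤ 2 * D * dg G U x))
        (fun a => 2 * D * dg G U a) n fun a ha => by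
          have := (mem_filter.1 ha).2
          omega
      simpa using this
    rw [← mul_sum] at h4
    have h5 : (U.filter (fun x => ¬ n ≤ 2 * D * dg G U x)).card * n ≤ n * n :=
      Nat.mul_le_mul_right n ((card_filter_le _ _).trans hU)
    have h6 : n * n ≤ n * (2 * D * hv.card) := by
      have h7 : 2 * D * ∑ x ∈ hv, dg G U x ≤ 2 * D * (hv.card * n) := Nat.mul_le_mul_left _ h3
      have h8 : 2 * n ^ 2 ≤ 2 * D * XX G U U := by nlinarith
      rw [h2, mul_add] at h8
      nlinarith
    exact Nat.le_of_mul_le_mul_left h6 (by omega)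
  have h2 : M ≤ hv.card := by
    have h3 : 2 * D * M ≤ 2 * D * hv.card := by omega
    exact Nat.le_of_mul_le_mul_left h3 (by omega)
  obtain ⟨M0, hM0, hM0c⟩ := exists_subset_card_eq h2
  have hM0U : M0 ⊆ U := hM0.trans (filter_subset _ _)
  have h3 : M * n ≤ 2 * D * XX G M0 U := by
    unfold XX
    rw [mul_sum]
    have := card_nsmul_le_sum M0 (fun a => 2 * D * dg G U a) n fun a ha =>
      (mem_filter.1 (hM0 ha)).2
    simpa [hM0c] using this
  set Q0 : Finset V := U.filter (fun x => w ≤ dg G M0 x) with hQ0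
  have h4 : XX G U M0 ≤ Q0.card * M + n * w := by
    have h5 : XX G U M0 = ∑ x ∈ Q0, dg G M0 x + ∑ x ∈ U.filter (fun x => ¬ w ≤ dg G M0 x),
        dg G M0 x := by
      unfold XX
      rw [sum_filter_add_sum_filter_not]
    have h6 : ∑ x ∈ Q0, dg G M0 x ≤ Q0.card * M := by
      have := sum_le_card_nsmul Q0 (fun a => dg G M0 a) M fun a _ =>
        (dg_le G M0 a).trans hM0c.le
      simpa using this
    have h7 : ∑ x ∈ U.filter (fun x => ¬ w ≤ dg G M0 x), dg G M0 x ≤
        (U.filter (fun x => ¬ w ≤ dg G M0 x)).card * w := by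
      have := sum_le_card_nsmul (U.filter (fun x => ¬ w ≤ dg G M0 x)) (fun a => dg G M0 a) w
        fun a ha => by
          have := (mem_filter.1 ha).2
          omega
      simpa using this
    have h8 : (U.filter (fun x => ¬ w ≤ dg G M0 x)).card * w ≤ n * w :=
      Nat.mul_le_mul_right w ((card_filter_le _ _).trans hU)
    omega
  rw [xx_comm G U M0] at h4
  have h5 : n ≤ 4 * D * Q0.card := by
    have h6 : M * n ≤ 2 * D * (Q0.card * M + n * w) := h3.trans (Nat.mul_le_mul_left _ h4)
    have h7 : 2 * D * w * n ≤ 2 * D * w * (4 * D * Q0.card) := by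
      rw [hM] at h6
      nlinarith
    exact Nat.le_of_mul_le_mul_left h7 (by positivity)
  have h6 : M0.powerset.card * w ≤ Q0.card := by
    rw [card_powerset, hM0c, ← hE]
    have h7 : 4 * D * (E * w) ≤ 4 * D * Q0.card := by omega
    exact Nat.le_of_mul_le_mul_left h7 (by omega)
  obtain ⟨y, hy, hyc⟩ := exists_le_card_fiber_of_mul_le_card_of_maps_to
    (f := fun x => M0.filter (G.Adj x)) (s := Q0) (t := M0.powerset)
    (fun x _ => mem_powerset.2 (filter_subset _ _)) (powerset_nonempty _) h6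
  refine ⟨y, (mem_powerset.1 hy).trans hM0U, Q0.filter (fun x => M0.filter (G.Adj x) = y),
    (filter_subset _ _).trans (filter_subset _ _), ?_, hyc, ?_⟩
  · obtain ⟨x, hx⟩ := card_pos.1 (lt_of_lt_of_le (by omega) hyc)
    have h7 := mem_filter.1 hx
    rw [← h7.2]
    exact (mem_filter.1 h7.1).2
  · intro p hp x hx
    have h7 := (mem_filter.1 hx).2
    rw [← h7] at hp
    exact (mem_filter.1 hp).2.symm

/-- Few vertices with few non-neighbours in `Y` have many common neighbours in `Y`. -/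
theorem common (G : SimpleGraph V) (q n w : ℕ) (hq : q = 32 * (w + 1)) (hn : 6 * w ≤ n)
    (Y T : Finset V) (hT : T.card ≤ 2 * (w + 1)) (hnd : ∀ t ∈ T, q * nd G Y t ≤ 4 * n)
    (hY : q * n ≤ 2 * q * Y.card + 4 * n) :
    w ≤ (Y.filter fun y => ∀ t ∈ T, G.Adj t y).card := by
  set Q : Finset V := Y.filter fun y => ∀ t ∈ T, G.Adj t y with hQ
  have h1 : Y ⊆ Q ∪ T.biUnion (fun t => Y.filter fun b => ¬ G.Adj t b) := by
    intro y hy
    by_cases h : ∀ t ∈ T, G.Adj t y
    · exact mem_union_left _ (mem_filter.2 ⟨hy, h⟩)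
    · push Not at h
      obtain ⟨t, ht, hty⟩ := h
      exact mem_union_right _ (mem_biUnion.2 ⟨t, ht, mem_filter.2 ⟨hy, hty⟩⟩)
  have h2 : Y.card ≤ Q.card + ∑ t ∈ T, nd G Y t :=
    (card_le_card h1).trans ((card_union_le _ _).trans
      (Nat.add_le_add_left card_biUnion_le _))
  have h3 : q * ∑ t ∈ T, nd G Y t ≤ T.card * (4 * n) := by
    rw [mul_sum]
    have := sum_le_card_nsmul T (fun a => q * nd G Y a) (4 * n) hnd
    simpa using this
  have h4 : T.card * (4 * n) ≤ 2 * (w + 1) * (4 * n) := Nat.mul_le_mul_right _ hT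
  have h5 : q * Y.card ≤ q * Q.card + 8 * ((w + 1) * n) := by
    have h6 := Nat.mul_le_mul_left q h2
    rw [mul_add] at h6
    nlinarith
  have h6 : 64 * ((w + 1) * w) ≤ 64 * ((w + 1) * Q.card) := by
    have h7 : (w + 1) * (6 * w) ≤ (w + 1) * n := Nat.mul_le_mul_left _ hn
    subst hq
    nlinarith
  have h7 : (w + 1) * w ≤ (w + 1) * Q.card := by omega
  exact Nat.le_of_mul_le_mul_left h7 (by omega)

end Pool.Agent.MP_0a9719_co_FG
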