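import Mathlib
import Pool.Agent.Lib.MP_0a9719_co_FG.Kst

/-!
# Copies of near-bipartite graphs
-/

set_option autoImplicit false

namespace Pool.Agent.MP_0a9719_co_FG

open Finset Classical

/-- If `F - c` is bipartite and the neighbourhood of `z` contains a large complete bipartite graph,
then `G` contains `F`. -/
theorem emb_apex {W V : Type*} [Fintype W] (F : SimpleGraph W) (c : W) (col : W → Bool)
    (hF : ∀ x y, x ≠ c → y ≠ c → F.Adj x y → col x ≠ col y)
    (G : SimpleGraph V) (z : V) (P Q : Finset V) (hP : Fintype.card W ≤ P.card)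
    (hQ : Fintype.card W ≤ Q.card) (hPQ : ∀ x ∈ P, ∀ y ∈ Q, G.Adj x y)
    (hzP : ∀ x ∈ P, G.Adj z x) (hzQ : ∀ x ∈ Q, G.Adj z x) : F.IsContained G := by
  obtain ⟨i⟩ : Nonempty (W ↪ P) := Function.Embedding.nonempty_of_card_le (by simpa using hP)
  obtain ⟨j⟩ : Nonempty (W ↪ Q) := Function.Embedding.nonempty_of_card_le (by simpa using hQ)
  set f : W → V := fun w => if w = c then z else if col w = true then (i w : V) else j w with hf
  have hfc : f c = z := by simp [hf]
  have hft : ∀ w, w ≠ c → col w = true → f w = i w := fun w hw hc => by simp [hf, hw, hc]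
  have hff : ∀ w, w ≠ c → col w = false → f w = j w := fun w hw hc => by simp [hf, hw, hc]
  have hadjz : ∀ w, w ≠ c → G.Adj z (f w) := by
    intro w hw
    cases hc : col w
    · rw [hff w hw hc]
      exact hzQ _ (j w).2
    · rw [hft w hw hc]
      exact hzP _ (i w).2
  have hinj : Function.Injective f := by
    intro w w' h
    by_cases hw : w = c <;> by_cases hw' : w' = c
    · rw [hw, hw']
    · exfalso
      have h4 := hadjz w' hw'
      rw [← h, hw, hfc] at h4
      exact G.loopless.irrefl _ h4
    · exfalso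
      have h4 := hadjz w hw
      rw [h, hw', hfc] at h4
      exact G.loopless.irrefl _ h4
    · cases hc : col w <;> cases hc' : col w'
      · rw [hff w hw hc, hff w' hw' hc'] at h
        exact j.injective (Subtype.ext h)
      · exfalso
        rw [hff w hw hc, hft w' hw' hc'] at h
        have h5 := hPQ _ (i w').2 _ (j w).2
        rw [h] at h5
        exact G.loopless.irrefl _ h5
      · exfalso
        rw [hft w hw hc, hff w' hw' hc'] at h
        have h5 := hPQ _ (i w).2 _ (j w').2
        rw [h] at h5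
        exact G.loopless.irrefl _ h5
      · rw [hft w hw hc, hft w' hw' hc'] at h
        exact i.injective (Subtype.ext h)
  refine ⟨⟨⟨f, ?_⟩, hinj⟩⟩
  intro w w' hww
  by_cases hw : w = c
  · have hw' : w' ≠ c := fun h4 => hww.ne (hw.trans h4.symm)
    rw [hw, hfc]
    exact hadjz w' hw'
  by_cases hw' : w' = c
  · rw [hw', hfc]
    exact (hadjz w hw).symm
  have h6 := hF w w' hw hw' hww
  cases hc : col w <;> cases hc' : col w'
  · exact absurd (hc.trans hc'.symm) h6
  · rw [hff w hw hc, hft w' hw' hc']
    exact (hPQ _ (i w').2 _ (j w).2).symm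
  · rw [hft w hw hc, hff w' hw' hc']
    exact hPQ _ (i w).2 _ (j w').2
  · exact absurd (hc.trans hc'.symm) h6

/-- If `F` is the union of an independent set `B` and a set which induces a matching, and `G`
contains `|W|` disjoint edges with many common neighbours, then `G` contains `F`. -/
theorem emb_mat {W V : Type*} [Fintype W] (F : SimpleGraph W) (B : Set W)
    (hB : ∀ x ∈ B, ∀ y ∈ B, ¬ F.Adj x y)
    (hF : ∀ w x y, w ∉ B → x ∉ B → y ∉ B → F.Adj w x → F.Adj w y → x = y)
    (G : SimpleGraph V) (g : ℕ → Bool → V)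
    (h2 : ∀ i < Fintype.card W, G.Adj (g i false) (g i true))
    (h3 : ∀ i < Fintype.card W, ∀ j < Fintype.card W, ∀ b b', g i b = g j b' → i = j ∧ b = b')
    (Q : Finset V) (hQ : Fintype.card W ≤ Q.card)
    (hgQ : ∀ i < Fintype.card W, ∀ b, ∀ y ∈ Q, G.Adj (g i b) y) : F.IsContained G := by
  obtain ⟨k⟩ : Nonempty (W ↪ Q) := Function.Embedding.nonempty_of_card_le (by simpa using hQ)
  set e : W ≃ Fin (Fintype.card W) := Fintype.equivFin W with he
  set p : W → W := fun w => if h : ∃ x, x ∉ B ∧ F.Adj w x then h.choose else w with hp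
  have hp1 : ∀ w x, w ∉ B → x ∉ B → F.Adj w x → p w = x := by
    intro w x hw hx hwx
    have hex : ∃ x, x ∉ B ∧ F.Adj w x := ⟨x, hx, hwx⟩
    have h4 : p w = hex.choose := by
      simp only [hp]
      rw [dif_pos hex]
    rw [h4]
    exact hF w _ _ hw hex.choose_spec.1 hx hex.choose_spec.2 hwx
  have hpc : ∀ w, w ∉ B → p w ∉ B ∧ p (p w) = w := by
    intro w hw
    by_cases hex : ∃ x, x ∉ B ∧ F.Adj w x
    · obtain ⟨x, hx, hwx⟩ := hex
      rw [hp1 w x hw hx hwx]
      exact ⟨hx, hp1 x w hx hw hwx.symm⟩
    · have h4 : p w = w := by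
        simp only [hp]
        rw [dif_neg hex]
      rw [h4, h4]
      exact ⟨hw, rfl⟩
  set i : W → ℕ := fun w => min (e w : ℕ) (e (p w)) with hi
  set b : W → Bool := fun w => decide ((e (p w) : ℕ) < e w) with hb
  have hik : ∀ w, i w < Fintype.card W := fun w => lt_of_le_of_lt (min_le_left _ _) (e w).2
  have hinj : ∀ w w', w ∉ B → w' ∉ B → i w = i w' → b w = b w' → w = w' := by
    intro w w' hw hw' h4 h5
    simp only [hi, hb, decide_eq_decide] at h4 h5
    by_cases h6 : (e (p w) : ℕ) < e w
    · have h7 := h5.1 h6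
      rw [min_eq_right h6.le, min_eq_right h7.le] at h4
      have h8 : p w = p w' := e.injective (Fin.ext h4)
      rw [← (hpc w hw).2, ← (hpc w' hw').2, h8]
    · have h7 := mt h5.2 h6
      rw [min_eq_left (not_lt.1 h6), min_eq_left (not_lt.1 h7)] at h4
      exact e.injective (Fin.ext h4)
  set f : W → V := fun w => if w ∈ B then (k w : V) else g (i w) (b w) with hf
  have hfB : ∀ w, w ∈ B → f w = k w := fun w hw => by simp [hf, hw]
  have hfw : ∀ w, w ∉ B → f w = g (i w) (b w) := fun w hw => by simp [hf, hw]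
  have hfinj : Function.Injective f := by
    intro w w' hww
    by_cases hw : w ∈ B <;> by_cases hw' : w' ∈ B
    · rw [hfB w hw, hfB w' hw'] at hww
      exact k.injective (Subtype.ext hww)
    · exfalso
      rw [hfB w hw, hfw w' hw'] at hww
      have h4 := hgQ _ (hik w') (b w') _ (k w).2
      rw [hww] at h4
      exact G.loopless.irrefl _ h4
    · exfalso
      rw [hfw w hw, hfB w' hw'] at hww
      have h4 := hgQ _ (hik w) (b w) _ (k w').2
      rw [hww] at h4
      exact G.loopless.irrefl _ h4
    · rw [hfw w hw, hfw w' hw'] at hww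
      obtain ⟨h4, h5⟩ := h3 _ (hik w) _ (hik w') _ _ hww
      exact hinj w w' hw hw' h4 h5
  refine ⟨⟨⟨f, ?_⟩, hfinj⟩⟩
  intro w w' hww
  by_cases hw : w ∈ B <;> by_cases hw' : w' ∈ B
  · exact absurd hww (hB w hw w' hw')
  · rw [hfB w hw, hfw w' hw']
    exact (hgQ _ (hik w') (b w') _ (k w).2).symm
  · rw [hfw w hw, hfB w' hw']
    exact hgQ _ (hik w) (b w) _ (k w').2
  rw [hfw w hw, hfw w' hw']
  have h4 : p w = w' := hp1 w w' hw hw' hww
  have h5 : p w' = w := hp1 w' w hw' hw hww.symm
  have h6 : i w = i w' := by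
    simp only [hi, h4, h5]
    exact min_comm _ _
  have h7 : (e w : ℕ) ≠ e w' := fun h7 => hww.ne (e.injective (Fin.ext h7))
  have h8 := h2 _ (hik w')
  rw [h6]
  rcases lt_or_gt_of_ne h7 with h9 | h9
  · have h10 : b w = false := by
      simp only [hb, h4, decide_eq_false_iff_not]
      omega
    have h11 : b w' = true := by
      simp only [hb, h5, decide_eq_true_eq]
      exact h9
    rw [h10, h11]
    exact h8
  · have h10 : b w = true := by
      simp only [hb, h4, decide_eq_true_eq]
      exact h9
    have h11 : b w' = false := by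
      simp only [hb, h5, decide_eq_false_iff_not]
      omega
    rw [h10, h11]
    exact h8.symm

end Pool.Agent.MP_0a9719_co_FG
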