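import Mathlib
import Pool.Agent.Lib.MP_0a9719_co_FG.Emb2

/-!
# The extremal number of near-bipartite graphs with a matching
-/

set_option autoImplicit false

namespace Pool.Agent.MP_0a9719_co_FG

open Finset Classical

/-- One side of an almost complete bipartite graph. -/
theorem side {W V : Type*} [Fintype W] (F : SimpleGraph W) (c : W) (col : W → Bool)
    (hF : ∀ x y, x ≠ c → y ≠ c → F.Adj x y → col x ≠ col y) (B : Set W)
    (hB : ∀ x ∈ B, ∀ y ∈ B, ¬ F.Adj x y)
    (hF' : ∀ w x y, w ∉ B → x ∉ B → y ∉ B → F.Adj w x → F.Adj w y → x = y)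
    (G : SimpleGraph V) (hG : F.Free G) (q n w : ℕ) (hw : w = Fintype.card W)
    (hq : q = 32 * (w + 1)) (hn : 6 * w ≤ n) (X Y : Finset V)
    (hnd : ∀ t ∈ X, q * nd G Y t ≤ 4 * n) (hY : q * n ≤ 2 * q * Y.card + 4 * n) :
    XX G X X ≤ 4 * w ^ 2 := by
  -- the inner degrees are smaller than `w`
  have hdeg : ∀ z ∈ X, dg G X z < w := by
    intro z hz
    by_contra h
    push Not at h
    obtain ⟨L, hL, hLc⟩ := exists_subset_card_eq h
    have hLX : L ⊆ X := hL.trans (filter_subset _ _)
    have h1 := common G q n w hq hn Y (insert z L)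
      ((card_insert_le _ _).trans (by omega))
      (fun t ht => by
        rcases mem_insert.1 ht with rfl | ht
        · exact hnd _ hz
        · exact hnd _ (hLX ht)) hY
    refine hG (emb_apex F c col hF G z L
      (Y.filter fun y => ∀ t ∈ insert z L, G.Adj t y) (by omega) (by omega) ?_ ?_ ?_)
    · intro x hx y hy
      exact (mem_filter.1 hy).2 x (mem_insert_of_mem hx)
    · intro x hx
      exact (mem_filter.1 (hL hx)).2
    · intro y hy
      exact (mem_filter.1 hy).2 z (mem_insert_self _ _)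
  -- there are no `w` disjoint inner edges
  have hmat : ¬ Mat G w X := by
    intro h
    have hne : Nonempty V := by
      by_contra hV
      have h0 : X = ∅ := by
        ext x
        exact absurd ⟨x⟩ hV
      have hc : 0 < Fintype.card W := Fintype.card_pos_iff.2 ⟨c⟩
      obtain ⟨w', rfl⟩ : ∃ w', w = w' + 1 := ⟨w - 1, by omega⟩
      obtain ⟨x, hx, -⟩ := h
      rw [h0] at hx
      exact absurd hx (notMem_empty _)
    obtain ⟨g, h1, h2, h3⟩ := mat_emb G w X h
    set T : Finset V := ((range w) ×ˢ (univ : Finset Bool)).image fun p => g p.1 p.2 with hT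
    have hTc : T.card ≤ 2 * (w + 1) := by
      refine card_image_le.trans ?_
      rw [card_product]
      simp
      omega
    have hTX : ∀ t ∈ T, t ∈ X := by
      intro t ht
      obtain ⟨p, hp, rfl⟩ := mem_image.1 ht
      exact h1 _ (mem_range.1 (mem_product.1 hp).1) _
    have hTg : ∀ i < w, ∀ b, g i b ∈ T := fun i hi b =>
      mem_image.2 ⟨(i, b), mem_product.2 ⟨mem_range.2 hi, mem_univ _⟩, rfl⟩
    have h4 := common G q n w hq hn Y T hTc (fun t ht => hnd _ (hTX t ht)) hY
    subst hw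
    exact hG (emb_mat F B hB hF' G g h2 h3 (Y.filter fun y => ∀ t ∈ T, G.Adj t y) h4
      fun i hi b y hy => (mem_filter.1 hy).2 _ (hTg i hi b))
  obtain ⟨Z, hZ, hZi⟩ := mat_cover G w X hmat
  have h1 : X = (X \ Z) ∪ (X ∩ Z) := (sdiff_union_inter X Z).symm
  have h2 : Disjoint (X \ Z) (X ∩ Z) := disjoint_sdiff_inter X Z
  have h3 : XX G (X \ Z) (X \ Z) = 0 := by
    have := xx_le G (X \ Z) (X \ Z) 0 (by
      intro a ha
      unfold dg
      rw [nonpos_iff_eq_zero, card_eq_zero, filter_eq_empty_iff]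
      exact fun b hb => hZi a ha b hb)
    omega
  have h4 : XX G X X ≤ 2 * XX G (X ∩ Z) X := by
    have h5 : XX G X X = XX G (X \ Z) (X \ Z) + XX G (X ∩ Z) (X ∩ Z) +
        2 * XX G (X \ Z) (X ∩ Z) := by
      conv_lhs => rw [h1]
      exact xx_union G h2
    have h6 : XX G (X ∩ Z) X = XX G (X \ Z) (X ∩ Z) + XX G (X ∩ Z) (X ∩ Z) := by
      rw [xx_comm G (X ∩ Z) X]
      conv_lhs => rw [h1]
      rw [show (X \ Z ∪ X ∩ Z) ∩ Z = X ∩ Z by rw [← h1]]
      exact xx_union_left G h2 _
    omega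
  have h5 : XX G (X ∩ Z) X ≤ (X ∩ Z).card * w :=
    xx_le G _ _ w fun a ha => (hdeg a (mem_inter.1 ha).1).le
  have h6 : (X ∩ Z).card ≤ 2 * w := (card_le_card inter_subset_right).trans hZ
  have h7 : (X ∩ Z).card * w ≤ 2 * w * w := Nat.mul_le_mul_right w h6
  nlinarith

/-- The structure of an `F`-free graph of minimum degree larger than `n / 2`. -/
theorem dense_gen {W V : Type*} [Fintype W] (F : SimpleGraph W) (c : W) (col : W → Bool)
    (hF : ∀ x y, x ≠ c → y ≠ c → F.Adj x y → col x ≠ col y) (B : Set W)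
    (hB : ∀ x ∈ B, ∀ y ∈ B, ¬ F.Adj x y)
    (hF' : ∀ w x y, w ∉ B → x ∉ B → y ∉ B → F.Adj w x → F.Adj w y → x = y)
    (G : SimpleGraph V) (hG : F.Free G) (q D w : ℕ) (hw : w = Fintype.card W)
    (hq : q = 32 * (w + 1)) (hD : D = 4 * q ^ 2) (S : Finset V)
    (hn : 4 * D * (2 ^ (4 * D * w) * w) + 2 * D * (4 * D * w) + 1 ≤ S.card)
    (hn' : 6 * w ≤ S.card) (hdeg : ∀ x ∈ S, S.card + 1 ≤ 2 * dg G S x) :
    XX G S S ≤ 2 * (S.card ^ 2 / 4) + 8 * w ^ 2 := by
  obtain ⟨n, hnS⟩ : ∃ n, n = S.card := ⟨_, rfl⟩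
  rw [← hnS] at hn hn' hdeg ⊢
  have hw1 : 1 ≤ w := by
    rw [hw]
    exact Fintype.card_pos_iff.2 ⟨c⟩
  have hq1 : 64 ≤ q := by omega
  have hD1 : 1 ≤ D := by
    rw [hD]
    nlinarith
  have hn1 : 1 ≤ n := by omega
  -- the neighbourhoods are sparse
  have hsp : ∀ z, D * XX G (S.filter (G.Adj z)) (S.filter (G.Adj z)) < n ^ 2 := by
    intro z
    by_contra h
    push Not at h
    obtain ⟨P, hP, Q, hQ, hPc, hQc, hPQ⟩ := kst G D w n hD1 hw1 hn (S.filter (G.Adj z))
      (by rw [hnS]; exact card_filter_le _ _) h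
    exact hG (emb_apex F c col hF G z P Q (by omega) (by omega) hPQ
      (fun x hx => (mem_filter.1 (hP hx)).2) (fun x hx => (mem_filter.1 (hQ hx)).2))
  obtain ⟨v, hv⟩ : S.Nonempty := card_pos.1 (by omega)
  set I : Finset V := S.filter (G.Adj v) with hI
  set J : Finset V := S \ I with hJ
  have hIS : I ⊆ S := filter_subset _ _
  have hJS : J ⊆ S := sdiff_subset
  have hIJd : Disjoint I J := disjoint_sdiff
  have hIJS : I ∪ J = S := union_sdiff_of_subset hIS
  have hIc : n + 1 ≤ 2 * I.card := hdeg v hv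
  have hcIJ : I.card + J.card = n := by
    rw [← card_union_of_disjoint hIJd, hIJS, hnS]
  have hXI : D * XX G I I < n ^ 2 := hsp v
  have hYIJ : YY G I J ≤ XX G I I := by
    unfold YY XX
    refine sum_le_sum fun x hx => ?_
    have h1 := hdeg x (hIS hx)
    rw [← hIJS, dg_union G hIJd] at h1
    have h2 := dg_add_nd G J x
    omega
  have hYIJ' : D * YY G I J < n ^ 2 := lt_of_le_of_lt (Nat.mul_le_mul_left D hYIJ) hXI
  -- no vertex has many neighbours on both sides
  have hone : ∀ z, n ≤ q * dg G I z → q * dg G J z < n := by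
    intro z h1
    by_contra h2
    push Not at h2
    have h3 := xx_add_yy G (I.filter (G.Adj z)) (J.filter (G.Adj z))
    have h4 : XX G (I.filter (G.Adj z)) (J.filter (G.Adj z)) ≤
        XX G (S.filter (G.Adj z)) (S.filter (G.Adj z)) :=
      xx_mono G (filter_subset_filter _ hIS) (filter_subset_filter _ hJS)
    have h5 : YY G (I.filter (G.Adj z)) (J.filter (G.Adj z)) ≤ YY G I J :=
      yy_mono G (filter_subset _ _) (filter_subset _ _)
    have h6 := hsp z
    have h7 : n * n ≤ (q * dg G I z) * (q * dg G J z) := Nat.mul_le_mul h1 h2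
    have h8 : dg G I z * dg G J z ≤ XX G (S.filter (G.Adj z)) (S.filter (G.Adj z)) +
        YY G I J := by
      have h9 : dg G I z * dg G J z = (I.filter (G.Adj z)).card * (J.filter (G.Adj z)).card := rfl
      omega
    have h10 : 4 * q ^ 2 * (dg G I z * dg G J z) ≤
        D * (XX G (S.filter (G.Adj z)) (S.filter (G.Adj z)) + YY G I J) := by
      rw [hD]
      exact Nat.mul_le_mul_left _ h8
    nlinarith
  set X : Finset V := S.filter (fun z => q * dg G I z < n) with hX
  set Y : Finset V := S \ X with hY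
  have hXS : X ⊆ S := filter_subset _ _
  have hYS : Y ⊆ S := sdiff_subset
  have hXYd : Disjoint X Y := disjoint_sdiff
  have hXYS : X ∪ Y = S := union_sdiff_of_subset hXS
  have hcXY : X.card + Y.card = n := by
    rw [← card_union_of_disjoint hXYd, hXYS, hnS]
  have hYmem : ∀ z ∈ Y, n ≤ q * dg G I z := by
    intro z hz
    have h1 := mem_sdiff.1 hz
    by_contra h2
    exact h1.2 (mem_filter.2 ⟨h1.1, by omega⟩)
  -- the two partitions agree up to few vertices
  have hIY : 4 * q * (I ∩ Y).card < n := by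
    have h1 : (I ∩ Y).card * n ≤ q * XX G I I := by
      have h2 : (I ∩ Y).card * n ≤ ∑ z ∈ I ∩ Y, q * dg G I z := by
        have := card_nsmul_le_sum (I ∩ Y) (fun z => q * dg G I z) n fun z hz =>
          hYmem z (mem_inter.1 hz).2
        simpa using this
      rw [← mul_sum] at h2
      refine h2.trans (Nat.mul_le_mul_left q ?_)
      exact sum_le_sum_of_subset_of_nonneg inter_subset_left fun _ _ _ => Nat.zero_le _
    have h2 : 4 * q * ((I ∩ Y).card * n) ≤ D * XX G I I := by
      rw [hD]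
      calc 4 * q * ((I ∩ Y).card * n) ≤ 4 * q * (q * XX G I I) := Nat.mul_le_mul_left _ h1
        _ = 4 * q ^ 2 * XX G I I := by ring
    have h3 : (4 * q * (I ∩ Y).card) * n < n * n := by nlinarith
    exact lt_of_mul_lt_mul_right h3 (Nat.zero_le _)
  have hJX : q * (J ∩ X).card ≤ n := by
    have h1 : (J ∩ X).card * n ≤ 4 * YY G J I := by
      have h2 : (J ∩ X).card * n ≤ ∑ z ∈ J ∩ X, 4 * nd G I z := by
        have := card_nsmul_le_sum (J ∩ X) (fun z => 4 * nd G I z) n fun z hz => by
          have h3 := (mem_filter.1 (mem_inter.1 hz).2).2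
          have h4 := dg_add_nd G I z
          have h5 : q * (dg G I z + nd G I z) = q * I.card := by rw [h4]
          by_contra h6
          push Not at h6
          have h7 : q * (4 * nd G I z) ≤ q * n := Nat.mul_le_mul_left q h6.le
          have h8 : q * (n + 1) ≤ q * (2 * I.card) := Nat.mul_le_mul_left q hIc
          have h9 : 64 * n ≤ q * n := Nat.mul_le_mul_right n hq1
          nlinarith
        simpa using this
      rw [← mul_sum] at h2
      refine h2.trans (Nat.mul_le_mul_left 4 ?_)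
      exact sum_le_sum_of_subset_of_nonneg inter_subset_left fun _ _ _ => Nat.zero_le _
    rw [yy_comm G J I] at h1
    have h2 : D * ((J ∩ X).card * n) ≤ 4 * (D * YY G I J) := by
      calc D * ((J ∩ X).card * n) ≤ D * (4 * YY G I J) := Nat.mul_le_mul_left _ h1
        _ = 4 * (D * YY G I J) := by ring
    have h3 : (q * q * (J ∩ X).card) * n < n * n := by
      have h4 : 4 * ((q * q * (J ∩ X).card) * n) = D * ((J ∩ X).card * n) := by
        rw [hD]
        ring
      nlinarith
    have h4 : q * q * (J ∩ X).card < n := lt_of_mul_lt_mul_right h3 (Nat.zero_le _)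
    have h5 : q * (J ∩ X).card ≤ q * q * (J ∩ X).card := by
      have : 1 * (q * (J ∩ X).card) ≤ q * (q * (J ∩ X).card) := Nat.mul_le_mul_right _ (by omega)
      nlinarith
    omega
  -- inner degrees
  have hdX : ∀ z ∈ X, q * dg G X z ≤ 2 * n := by
    intro z hz
    have h1 := (mem_filter.1 hz).2
    have h2 : dg G X z ≤ dg G I z + (J ∩ X).card := by
      have h3 : X ⊆ (X ∩ I) ∪ (J ∩ X) := by
        intro y hy
        by_cases hyI : y ∈ I
        · exact mem_union_left _ (mem_inter.2 ⟨hy, hyI⟩)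
        · exact mem_union_right _ (mem_inter.2 ⟨mem_sdiff.2 ⟨hXS hy, hyI⟩, hy⟩)
      have h4 : Disjoint (X ∩ I) (J ∩ X) :=
        disjoint_of_subset_left inter_subset_right
          (disjoint_of_subset_right inter_subset_left hIJd)
      have h5 := dg_mono G h3 z
      rw [dg_union G h4] at h5
      have h6 := dg_mono G (show X ∩ I ⊆ I from inter_subset_right) z
      have h7 := dg_le G (J ∩ X) z
      omega
    have h3 := Nat.mul_le_mul_left q h2
    rw [mul_add] at h3
    omega
  have hdY : ∀ z ∈ Y, q * dg G Y z ≤ 2 * n := by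
    intro z hz
    have h1 := hone z (hYmem z hz)
    have h2 : dg G Y z ≤ dg G J z + (I ∩ Y).card := by
      have h3 : Y ⊆ (Y ∩ J) ∪ (I ∩ Y) := by
        intro y hy
        by_cases hyI : y ∈ I
        · exact mem_union_right _ (mem_inter.2 ⟨hyI, hy⟩)
        · exact mem_union_left _ (mem_inter.2 ⟨hy, mem_sdiff.2 ⟨hYS hy, hyI⟩⟩)
      have h4 : Disjoint (Y ∩ J) (I ∩ Y) :=
        disjoint_of_subset_left inter_subset_right
          (disjoint_of_subset_right inter_subset_left hIJd.symm)
      have h5 := dg_mono G h3 z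
      rw [dg_union G h4] at h5
      have h6 := dg_mono G (show Y ∩ J ⊆ J from inter_subset_right) z
      have h7 := dg_le G (I ∩ Y) z
      omega
    have h3 := Nat.mul_le_mul_left q h2
    rw [mul_add] at h3
    have h4 : q * (I ∩ Y).card ≤ 4 * q * (I ∩ Y).card := by nlinarith
    omega
  -- the number of neighbours on the other side
  have hsX : ∀ z ∈ X, q * (n + 1) ≤ 2 * (q * dg G Y z) + 4 * n := by
    intro z hz
    have h1 := hdeg z (hXS hz)
    rw [← hXYS, dg_union G hXYd] at h1
    have h2 := hdX z hz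
    have h3 := Nat.mul_le_mul_left q h1
    rw [show q * (2 * (dg G X z + dg G Y z)) = 2 * (q * dg G X z) + 2 * (q * dg G Y z) by ring]
      at h3
    omega
  have hsY : ∀ z ∈ Y, q * (n + 1) ≤ 2 * (q * dg G X z) + 4 * n := by
    intro z hz
    have h1 := hdeg z (hYS hz)
    rw [← hXYS, dg_union G hXYd] at h1
    have h2 := hdY z hz
    have h3 := Nat.mul_le_mul_left q h1
    rw [show q * (2 * (dg G X z + dg G Y z)) = 2 * (q * dg G X z) + 2 * (q * dg G Y z) by ring]
      at h3
    omega
  have hq64 : 64 * n ≤ q * n := Nat.mul_le_mul_right n hq1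
  have hYne : Y.Nonempty := by
    by_contra h
    rw [not_nonempty_iff_eq_empty] at h
    have h1 : v ∈ X := by
      rw [← hXYS, h, union_empty] at hv
      exact hv
    have h2 := hsX v h1
    rw [h] at h2
    simp only [dg, filter_empty, card_empty, mul_zero, zero_add] at h2
    nlinarith
  have hXne : X.Nonempty := by
    by_contra h
    rw [not_nonempty_iff_eq_empty] at h
    have h1 : v ∈ Y := by
      rw [← hXYS, h, empty_union] at hv
      exact hv
    have h2 := hsY v h1
    rw [h] at h2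
    simp only [dg, filter_empty, card_empty, mul_zero, zero_add] at h2
    nlinarith
  obtain ⟨x0, hx0⟩ := hXne
  obtain ⟨y0, hy0⟩ := hYne
  have hYc : q * (n + 1) ≤ 2 * (q * Y.card) + 4 * n := by
    have h1 := hsX x0 hx0
    have h2 := Nat.mul_le_mul_left q (dg_le G Y x0)
    omega
  have hXc : q * (n + 1) ≤ 2 * (q * X.card) + 4 * n := by
    have h1 := hsY y0 hy0
    have h2 := Nat.mul_le_mul_left q (dg_le G X y0)
    omega
  have hcXY' : q * X.card + q * Y.card = q * n := by
    rw [← mul_add, hcXY]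
  have hqn : q * (n + 1) = q * n + q := by ring
  have hndX : ∀ t ∈ X, q * nd G Y t ≤ 4 * n := by
    intro t ht
    have h1 := hsX t ht
    have h2 := dg_add_nd G Y t
    have h3 : q * dg G Y t + q * nd G Y t = q * Y.card := by rw [← mul_add, h2]
    omega
  have hndY : ∀ t ∈ Y, q * nd G X t ≤ 4 * n := by
    intro t ht
    have h1 := hsY t ht
    have h2 := dg_add_nd G X t
    have h3 : q * dg G X t + q * nd G X t = q * X.card := by rw [← mul_add, h2]
    omega
  have h1 := side F c col hF B hB hF' G hG q n w hw hq hn' X Y hndX (by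
    rw [mul_assoc]
    omega)
  have h2 := side F c col hF B hB hF' G hG q n w hw hq hn' Y X hndY (by
    rw [mul_assoc]
    omega)
  have h3 : XX G S S = XX G X X + XX G Y Y + 2 * XX G X Y := by
    rw [← hXYS]
    exact xx_union G hXYd
  have h4 : XX G X Y ≤ X.card * Y.card := xx_le G _ _ _ fun a _ => dg_le G Y a
  have h5 := mul_le_sq X.card Y.card n hcXY
  omega

theorem upper_gen {W V : Type*} [Fintype W] (F : SimpleGraph W) (c : W) (col : W → Bool)
    (hF : ∀ x y, x ≠ c → y ≠ c → F.Adj x y → col x ≠ col y) (B : Set W)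
    (hB : ∀ x ∈ B, ∀ y ∈ B, ¬ F.Adj x y)
    (hF' : ∀ w x y, w ∉ B → x ∉ B → y ∉ B → F.Adj w x → F.Adj w y → x = y)
    (G : SimpleGraph V) (hG : F.Free G) (q D w N : ℕ) (hw : w = Fintype.card W)
    (hq : q = 32 * (w + 1)) (hD : D = 4 * q ^ 2)
    (hN : N = 4 * D * (2 ^ (4 * D * w) * w) + 2 * D * (4 * D * w) + 1 + 6 * w) :
    ∀ S : Finset V, XX G S S ≤ 2 * (S.card ^ 2 / 4) + 2 * (8 * w ^ 2 + N ^ 2) := by
  intro S
  induction S using Finset.strongInduction with
  | H S ih =>
    by_cases hsmall : S.card ≤ N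
    · have h1 := xx_le G S S _ fun a _ => dg_le G S a
      nlinarith [Nat.mul_le_mul hsmall hsmall, Nat.zero_le (S.card ^ 2 / 4)]
    by_cases hdeg : ∃ x ∈ S, 2 * dg G S x ≤ S.card
    · obtain ⟨x, hx, hd⟩ := hdeg
      have h1 := ih (S.erase x) (erase_ssubset hx)
      rw [card_erase_of_mem hx] at h1
      rw [xx_erase G S hx]
      have h2 := sq_step S.card (card_pos.2 ⟨x, hx⟩)
      have h3 : dg G S x ≤ S.card / 2 := by omega
      omega
    · push Not at hdeg
      have h1 := dense_gen F c col hF B hB hF' G hG q D w hw hq hD S (by omega) (by omega)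
        fun x hx => by
          have := hdeg x hx
          omega
      nlinarith [Nat.zero_le (N ^ 2)]

/-- The extremal number of `F` is at most `n ^ 2 / 4 + C`. -/
theorem edges_gen {W : Type*} [Fintype W] (F : SimpleGraph W) (c : W) (col : W → Bool)
    (hF : ∀ x y, x ≠ c → y ≠ c → F.Adj x y → col x ≠ col y) (B : Set W)
    (hB : ∀ x ∈ B, ∀ y ∈ B, ¬ F.Adj x y)
    (hF' : ∀ w x y, w ∉ B → x ∉ B → y ∉ B → F.Adj w x → F.Adj w y → x = y) :
    ∃ C : ℕ, ∀ (V : Type) [Fintype V] (G : SimpleGraph V), F.Free G →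
      G.edgeSet.ncard ≤ Fintype.card V ^ 2 / 4 + C := by
  obtain ⟨w, hw⟩ : ∃ w, w = Fintype.card W := ⟨_, rfl⟩
  obtain ⟨q, hq⟩ : ∃ q, q = 32 * (w + 1) := ⟨_, rfl⟩
  obtain ⟨D, hD⟩ : ∃ D, D = 4 * q ^ 2 := ⟨_, rfl⟩
  obtain ⟨N, hN⟩ : ∃ N, N = 4 * D * (2 ^ (4 * D * w) * w) + 2 * D * (4 * D * w) + 1 + 6 * w :=
    ⟨_, rfl⟩
  refine ⟨8 * w ^ 2 + N ^ 2, fun V _ G hG => ?_⟩
  have h1 := upper_gen F c col hF B hB hF' G hG q D w N hw hq hD hN univ
  have h2 : XX G univ univ = 2 * G.edgeFinset.card := by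
    rw [← G.sum_degrees_eq_twice_card_edges]
    unfold XX dg
    refine sum_congr rfl fun a _ => ?_
    rw [← G.card_neighborFinset_eq_degree]
    congr 1
    ext b
    simp
  have h3 : G.edgeSet.ncard = G.edgeFinset.card := by
    rw [← Set.ncard_coe_finset, SimpleGraph.coe_edgeFinset]
  rw [h3]
  rw [h2, card_univ] at h1
  exact Nat.le_of_mul_le_mul_left (by rw [mul_add]; exact h1) (by norm_num)

end Pool.Agent.MP_0a9719_co_FG
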