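import Mathlib
import Pool.Agent.Lib.MP_0a9719_co.Crit
import Pool.Agent.Lib.MP_0a9719_co_FG.Gen

/-!
# A complete bipartite graph and a star in one part
-/

set_option autoImplicit false

namespace Pool.Agent.MP_0a9719_co_FG

open Finset Classical _root_.MP_0a9719_co

/-- The orientation of the complete bipartite graph given by `s`, together with a star in the
left part with the centre `0`; only the edge to `t` leaves the centre. -/
def DD {m : ℕ} [NeZero m] (s : Fin m × Fin m → Bool) (t : Fin m) :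
    Fin m ⊕ Fin m → Fin m ⊕ Fin m → Prop
  | .inl a, .inr b => s (a, b) = true
  | .inr b, .inl a => s (a, b) = false
  | .inl a, .inl a' => (a = 0 ∧ a' ≠ 0 ∧ a' = t) ∨ (a' = 0 ∧ a ≠ 0 ∧ a ≠ t)
  | .inr _, .inr _ => False

/-- The complete bipartite graph with a star in the left part. -/
def HH (m : ℕ) [NeZero m] : SimpleGraph (Fin m ⊕ Fin m) where
  Adj x y := match x, y with
    | .inl a, .inl a' => (a = 0 ∧ a' ≠ 0) ∨ (a' = 0 ∧ a ≠ 0)
    | .inl _, .inr _ => True
    | .inr _, .inl _ => True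
    | .inr _, .inr _ => False
  symm := ⟨by
    rintro (a | a) (b | b) h
    · exact h.symm
    · trivial
    · trivial
    · exact h⟩
  loopless := ⟨by
    rintro (a | a) h
    · rcases h with h | h
      · exact h.2 h.1
      · exact h.2 h.1
    · exact h⟩

theorem dd_isOr {m : ℕ} [NeZero m] (s : Fin m × Fin m → Bool) (t : Fin m) :
    IsOr (HH m) (DD s t) := by
  rintro (a | a) (b | b)
  · constructor
    · change ((a = 0 ∧ b ≠ 0) ∨ (b = 0 ∧ a ≠ 0)) ↔
        (((a = 0 ∧ b ≠ 0 ∧ b = t) ∨ (b = 0 ∧ a ≠ 0 ∧ a ≠ t)) ∨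
          ((b = 0 ∧ a ≠ 0 ∧ a = t) ∨ (a = 0 ∧ b ≠ 0 ∧ b ≠ t)))
      tauto
    · change ¬ (((a = 0 ∧ b ≠ 0 ∧ b = t) ∨ (b = 0 ∧ a ≠ 0 ∧ a ≠ t)) ∧
          ((b = 0 ∧ a ≠ 0 ∧ a = t) ∨ (a = 0 ∧ b ≠ 0 ∧ b ≠ t)))
      tauto
  · constructor
    · change True ↔ (s (a, b) = true ∨ s (a, b) = false)
      cases s (a, b) <;> simp
    · change ¬ (s (a, b) = true ∧ s (a, b) = false)
      cases s (a, b) <;> simp
  · constructor
    · change True ↔ (s (b, a) = false ∨ s (b, a) = true)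
      cases s (b, a) <;> simp
    · change ¬ (s (b, a) = false ∧ s (b, a) = true)
      cases s (b, a) <;> simp
  · constructor
    · change False ↔ (False ∨ False)
      simp
    · change ¬ (False ∧ False)
      simp

theorem dd_inj {m : ℕ} [NeZero m] :
    Function.Injective fun q : (Fin m × Fin m → Bool) × Fin m => DD q.1 q.2 := by
  rintro ⟨s, t⟩ ⟨s', t'⟩ h
  change DD s t = DD s' t' at h
  have h1 : s = s' := by
    funext p
    have h2 : (s p = true) = (s' p = true) := congrFun (congrFun h (Sum.inl p.1)) (Sum.inr p.2)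
    cases hs : s p <;> cases hs' : s' p <;> simp_all
  have h3 : ∀ x : Fin m, x ≠ 0 → (x = t ↔ x = t') := by
    intro x hx
    have h2 : ((0 : Fin m) = 0 ∧ x ≠ 0 ∧ x = t ∨ x = 0 ∧ (0 : Fin m) ≠ 0 ∧ (0 : Fin m) ≠ t) =
        ((0 : Fin m) = 0 ∧ x ≠ 0 ∧ x = t' ∨ x = 0 ∧ (0 : Fin m) ≠ 0 ∧ (0 : Fin m) ≠ t') :=
      congrFun (congrFun h (Sum.inl 0)) (Sum.inl x)
    have h4 := iff_of_eq h2
    constructor
    · intro h5
      rcases h4.1 (Or.inl ⟨rfl, hx, h5⟩) with h6 | h6
      · exact h6.2.2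
      · exact absurd h6.1 hx
    · intro h5
      rcases h4.2 (Or.inl ⟨rfl, hx, h5⟩) with h6 | h6
      · exact h6.2.2
      · exact absurd h6.1 hx
  have h5 : t = t' := by
    by_cases ht : t = 0
    · by_cases ht' : t' = 0
      · rw [ht, ht']
      · exact ((h3 t' ht').2 rfl).symm
    · exact (h3 t ht).1 rfl
  rw [h1, h5]

/-- No orientation `DD s t` contains an orientation `A` of `F` such that, for each vertex `v` and
each 2-colouring of `F - v`, two edges leave `v` towards each colour. -/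
theorem dd_free {W : Type*} {m : ℕ} [NeZero m] (F : SimpleGraph W) (w₀ : W) (A : W → W → Prop)
    (hA : IsOr F A)
    (hout : ∀ (v : W) (col : W → Bool),
      (∀ x y, x ≠ v → y ≠ v → F.Adj x y → col x ≠ col y) →
      ∀ b : Bool, ∃ x y, x ≠ y ∧ A v x ∧ A v y ∧ col x = b ∧ col y = b)
    (s : Fin m × Fin m → Bool) (t : Fin m) : ¬ Contains A (DD s t) := by
  rintro ⟨f, hf, hfA⟩
  have hadj : ∀ x y, F.Adj x y → (HH m).Adj (f x) (f y) := by
    intro x y hxy
    rcases (hA x y).1.1 hxy with h | h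
    · exact (dd_isOr s t _ _).1.2 (Or.inl (hfA _ _ h))
    · exact (dd_isOr s t _ _).1.2 (Or.inr (hfA _ _ h))
  set col : W → Bool := fun w => (f w).isRight with hcol
  have key : ∀ x y, f x ≠ .inl 0 → f y ≠ .inl 0 → F.Adj x y → col x ≠ col y := by
    intro x y hx hy hxy h
    have h1 := hadj x y hxy
    simp only [hcol] at h
    rcases hfx : f x with a | a <;> rcases hfy : f y with b | b <;> rw [hfx, hfy] at h h1
    · have h2 : (a = 0 ∧ b ≠ 0) ∨ (b = 0 ∧ a ≠ 0) := h1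
      rcases h2 with h2 | h2
      · exact hx (by rw [hfx, h2.1])
      · exact hy (by rw [hfy, h2.1])
    · simp at h
    · simp at h
    · exact h1
  by_cases hv : ∃ v, f v = .inl 0
  · obtain ⟨v, hv⟩ := hv
    have hne : ∀ x, x ≠ v → f x ≠ .inl 0 := fun x hx h => hx (hf (h.trans hv.symm))
    obtain ⟨x, y, hxy, hx, hy, hcx, hcy⟩ := hout v col
      (fun x y hx hy => key x y (hne x hx) (hne y hy)) false
    have hto : ∀ x, A v x → col x = false → f x = .inl t := by
      intro x hx hc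
      have h1 := hfA v x hx
      rw [hv] at h1
      simp only [hcol] at hc
      rcases hfx : f x with a | a
      · rw [hfx] at h1
        have h2 : ((0 : Fin m) = 0 ∧ a ≠ 0 ∧ a = t) ∨
          (a = 0 ∧ (0 : Fin m) ≠ 0 ∧ (0 : Fin m) ≠ t) := h1
        rcases h2 with h2 | h2
        · rw [h2.2.2]
        · exact absurd rfl h2.2.1
      · rw [hfx] at hc
        simp at hc
    exact hxy (hf ((hto x hx hcx).trans (hto y hy hcy).symm))
  · push Not at hv
    obtain ⟨x, y, -, hx, -, hcx, -⟩ := hout w₀ col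
      (fun x y _ _ => key x y (hv x) (hv y)) (col w₀)
    exact key w₀ x (hv w₀) (hv x) ((hA w₀ x).1.2 (Or.inl hx)) hcx.symm

theorem main {W : Type*} [Fintype W] (F : SimpleGraph W) (c : W) (col : W → Bool)
    (hF : ∀ x y, x ≠ c → y ≠ c → F.Adj x y → col x ≠ col y) (B : Set W)
    (hB : ∀ x ∈ B, ∀ y ∈ B, ¬ F.Adj x y)
    (hF' : ∀ w x y, w ∉ B → x ∉ B → y ∉ B → F.Adj w x → F.Adj w y → x = y)
    (A : W → W → Prop) (hA : IsOr F A)
    (hout : ∀ (v : W) (col : W → Bool),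
      (∀ x y, x ≠ v → y ≠ v → F.Adj x y → col x ≠ col y) →
      ∀ b : Bool, ∃ x y, x ≠ y ∧ A v x ∧ A v y ∧ col x = b ∧ col y = b) : PropertyP F := by
  obtain ⟨C, hC⟩ := edges_gen F c col hF B hB hF'
  refine criterion F A hA fun n₀ => ?_
  obtain ⟨K, hK⟩ : ∃ K : ℕ, K = 2 ^ C := ⟨_, rfl⟩
  obtain ⟨m, hm⟩ : ∃ m : ℕ, m = n₀ + K + 1 := ⟨_, rfl⟩
  have hm0 : NeZero m := ⟨by omega⟩
  refine ⟨2 * m, by omega, Fin m ⊕ Fin m, inferInstance, HH m, by simp; omega, Or.inr ?_⟩
  intro H' hH'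
  have h11 := hC (Fin m ⊕ Fin m) H' hH'
  have h12 : Fintype.card (Fin m ⊕ Fin m) ^ 2 / 4 = m * m := by
    have h13 : Fintype.card (Fin m ⊕ Fin m) = 2 * m := by
      simp
      omega
    rw [h13, show (2 * m) ^ 2 = 4 * (m * m) by ring]
    omega
  rw [h12] at h11
  have h13 : 2 ^ (m * m) * m ≤ numFree A (HH m) := by
    unfold numFree
    have h : (Set.univ : Set ((Fin m × Fin m → Bool) × Fin m)).ncard ≤
        {D : Fin m ⊕ Fin m → Fin m ⊕ Fin m → Prop | IsOr (HH m) D ∧ ¬ Contains A D}.ncard := by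
      rw [← Set.ncard_image_of_injective _ (dd_inj (m := m))]
      refine Set.ncard_le_ncard ?_ (Set.toFinite _)
      rintro _ ⟨⟨s, t⟩, -, rfl⟩
      exact ⟨dd_isOr s t, dd_free F c A hA hout s t⟩
    refine le_trans (le_of_eq ?_) h
    rw [Set.ncard_univ, Nat.card_eq_fintype_card]
    simp
  refine lt_of_lt_of_le ?_ h13
  calc 2 ^ H'.edgeSet.ncard ≤ 2 ^ (m * m + C) := Nat.pow_le_pow_right (by norm_num) h11
    _ = 2 ^ (m * m) * K := by rw [pow_add, hK]
    _ < 2 ^ (m * m) * m := by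
      refine Nat.mul_lt_mul_of_pos_left (by omega) (by positivity)

end Pool.Agent.MP_0a9719_co_FG
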